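import Pool.Agent.N620.SL.Static

set_option autoImplicit false

/-! Families of reference trees with cheap static trees. -/

namespace Pool.Agent.N620.SL

open Pool.Agent.H581R2.Splay Pool.Agent.TH49.Spl
open Tr

/-- shapes of full binary trees -/
inductive Sh : Type
  | leaf : Sh
  | node (l r : Sh) : Sh

/-- number of nodes -/
def sz : Sh → ℕ
  | .leaf => 1
  | .node l r => sz l + 1 + sz r

/-- consecutive keys from `o` on -/
def lab : Sh → ℕ → Ref
  | .leaf, o => .leaf o
  | .node l r, o => .node true (o + sz l) (lab l o) (lab r (o + sz l + 1))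

theorem kys_lab (s : Sh) (o : ℕ) : kys (lab s o) = List.range' o (sz s) := by
  induction s generalizing o with
  | leaf => simp [lab, kys, sz]
  | node l r ihl ihr =>
    rw [lab, kys, ihl, ihr, sz]
    have e : sz l + 1 + sz r = sz l + (sz r + 1) := by ring
    rw [e, ← List.range'_append_1, List.range'_succ]

theorem ord_lab (s : Sh) (o : ℕ) : Ord (lab s o) := by
  unfold Ord; rw [kys_lab]; exact List.pairwise_lt_range'

/-- average depth -/
noncomputable def hs : Sh → ℝ
  | .leaf => 0
  | .node l r => 1 + (hs l + hs r) / 2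

theorem avg_hs (s : Sh) (o : ℕ) : avg 2 (fun C => 2 * (ndep C : ℝ) + 1) (lab s o) = 2 * hs s + 1 := by
  induction s generalizing o with
  | leaf => simp [lab, avg, ndep, hs]
  | node l r ihl ihr => rw [lab, avg, ihl, ihr, hs]; ring

/-- the average of a function of the keys over the leaves -/
noncomputable def ev (s : ℕ → ℝ) : Ref → ℝ
  | .leaf x => s x
  | .node _ _ l r => (ev s l + ev s r) / 2

theorem avg_ev (s : ℕ → ℝ) (B : Ref) : avg 0 (fun C => s (nxt C)) B = ev s B := by
  induction B with
  | leaf x => simp [avg, nxt, ev]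
  | node b j l r ihl ihr => rw [avg, ihl, ihr, ev]; ring

theorem ev_mono {s s' : ℕ → ℝ} {c : ℝ} (B : Ref) (h : ∀ x ∈ kys B, s x ≤ s' x + c) :
    ev s B ≤ ev s' B + c := by
  induction B with
  | leaf x => exact h x (by simp [kys])
  | node b j l r ihl ihr =>
    have h1 := ihl fun x hx => h x (by simp [kys, hx])
    have h2 := ihr fun x hx => h x (by simp [kys, hx])
    rw [ev, ev]; linarith

/-- insert a key on the far right -/
def insR (j : ℕ) : Tr → Tr
  | nil => Tr.node j nil nil
  | .node a l r => Tr.node a l (insR j r)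

/-- insert a key on the far left -/
def insL (j : ℕ) : Tr → Tr
  | nil => Tr.node j nil nil
  | .node a l r => Tr.node a (insL j l) r

theorem keys_insR (j : ℕ) (t : Tr) : keys (insR j t) = keys t ++ [j] := by
  induction t with
  | nil => simp [insR, keys]
  | node a l r ihl ihr => simp [insR, keys, ihr]

theorem keys_insL (j : ℕ) (t : Tr) : keys (insL j t) = j :: keys t := by
  induction t with
  | nil => simp [insL, keys]
  | node a l r ihl ihr => simp [insL, keys, ihl]

theorem bst_node {a : ℕ} {l r : Tr} (h : IsBST (Tr.node a l r)) :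
    IsBST l ∧ IsBST r ∧ (∀ x ∈ keys l, x < a) ∧ (∀ x ∈ keys r, a < x) := by
  unfold IsBST at h
  rw [keys, List.pairwise_append, List.pairwise_cons] at h
  exact ⟨h.1, h.2.1.2, fun x hx => h.2.2 x hx a (by simp), h.2.1.1⟩

theorem dep_insR {j x : ℕ} {t : Tr} (h : IsBST t) (hx : x ∈ keys t) :
    dep x (insR j t) = dep x t := by
  induction t with
  | nil => simp [keys] at hx
  | node a l r ihl ihr =>
    obtain ⟨hl, hr, hla, har⟩ := bst_node h
    rw [insR, dep, dep]
    rw [keys, List.mem_append, List.mem_cons] at hx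
    rcases hx with hx | rfl | hx
    · have := hla x hx
      rw [if_neg (by omega), if_pos this, if_neg (by omega), if_pos this]
    · simp
    · have := har x hx
      rw [if_neg (by omega), if_neg (by omega), if_neg (by omega), if_neg (by omega), ihr hr hx]

theorem dep_insL {j x : ℕ} {t : Tr} (h : IsBST t) (hx : x ∈ keys t) :
    dep x (insL j t) = dep x t := by
  induction t with
  | nil => simp [keys] at hx
  | node a l r ihl ihr =>
    obtain ⟨hl, hr, hla, har⟩ := bst_node h
    rw [insL, dep, dep]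
    rw [keys, List.mem_append, List.mem_cons] at hx
    rcases hx with hx | rfl | hx
    · have := hla x hx
      rw [if_neg (by omega), if_pos this, if_neg (by omega), if_pos this, ihl hl hx]
    · simp
    · have := har x hx
      rw [if_neg (by omega), if_neg (by omega), if_neg (by omega), if_neg (by omega)]

/-- There are static trees with average cost at most `e`. -/
def Ach (s : Sh) (e : ℝ) : Prop := ∀ o : ℕ, ∃ S : Tr, keys S = List.range' o (sz s) ∧
  ev (fun x => 1 + (dep x S : ℝ)) (lab s o) ≤ e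

theorem ach_leaf : Ach .leaf 1 := fun o => ⟨Tr.node o nil nil, by simp [keys, sz], by
  simp [lab, ev, dep]⟩

theorem bst_range {S : Tr} {o n : ℕ} (h : keys S = List.range' o n) : IsBST S := by
  unfold IsBST; rw [h]; exact List.pairwise_lt_range'

theorem ach_node {s t : Sh} {d e : ℝ} (h1 : Ach s d) (h2 : Ach t e) :
    Ach (.node s t) (1 + (d + e) / 2) := by
  intro o
  obtain ⟨S1, k1, e1⟩ := h1 o
  obtain ⟨S2, k2, e2⟩ := h2 (o + sz s + 1)
  refine ⟨Tr.node (o + sz s) S1 S2, ?_, ?_⟩
  · rw [keys, k1, k2, sz]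
    have e : sz s + 1 + sz t = sz s + (sz t + 1) := by ring
    rw [e, ← List.range'_append_1, List.range'_succ]
  · rw [lab, ev]
    have h3 := ev_mono (s := fun x => 1 + (dep x (Tr.node (o + sz s) S1 S2) : ℝ))
      (s' := fun x => 1 + (dep x S1 : ℝ)) (c := 1) (lab s o) (by
        intro x hx
        rw [kys_lab, List.mem_range'_1] at hx
        rw [dep_lt (by omega)]; push_cast; linarith)
    have h4 := ev_mono (s := fun x => 1 + (dep x (Tr.node (o + sz s) S1 S2) : ℝ))
      (s' := fun x => 1 + (dep x S2 : ℝ)) (c := 1) (lab t (o + sz s + 1)) (by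
        intro x hx
        rw [kys_lab, List.mem_range'_1] at hx
        rw [dep_gt (by omega)]; push_cast; linarith)
    linarith

theorem ach_two {s t : Sh} {d e : ℝ} (h1 : Ach s d) (h2 : Ach t e) :
    Ach (.node (.node s .leaf) t) (1 + d / 4 + e / 2) := by
  intro o
  obtain ⟨S1, k1, e1⟩ := h1 o
  obtain ⟨S2, k2, e2⟩ := h2 (o + sz s + 3)
  have b1 := bst_range k1
  have b2 := bst_range k2
  have hk : o + (sz s + 1 + 1) + 1 = o + sz s + 3 := by ring
  refine ⟨Tr.node (o + sz s + 1) (insR (o + sz s) S1) (insL (o + sz s + 2) S2), ?_, ?_⟩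
  · rw [keys, keys_insR, keys_insL, k1, k2]
    simp only [sz]
    have e : sz s + 1 + 1 + 1 + sz t = sz s + (sz t + 1 + 1 + 1) := by ring
    rw [e, ← List.range'_append_1, List.range'_succ, List.range'_succ, List.range'_succ]
    simp
  · simp only [lab, ev, sz]
    rw [hk]
    have h3 := ev_mono (s := fun x => 1 + (dep x
        (Tr.node (o + sz s + 1) (insR (o + sz s) S1) (insL (o + sz s + 2) S2)) : ℝ))
      (s' := fun x => 1 + (dep x S1 : ℝ)) (c := 1) (lab s o) (by
        intro x hx
        rw [kys_lab] at hx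
        have hx' := hx
        rw [List.mem_range'_1] at hx'
        rw [dep_lt (by omega), dep_insR b1 (by rw [k1]; exact hx)]; push_cast; linarith)
    have h4 := ev_mono (s := fun x => 1 + (dep x
        (Tr.node (o + sz s + 1) (insR (o + sz s) S1) (insL (o + sz s + 2) S2)) : ℝ))
      (s' := fun x => 1 + (dep x S2 : ℝ)) (c := 1) (lab t (o + sz s + 3)) (by
        intro x hx
        rw [kys_lab] at hx
        have hx' := hx
        rw [List.mem_range'_1] at hx'
        rw [dep_gt (by omega), dep_insL b2 (by rw [k2]; exact hx)]; push_cast; linarith)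
    have h5 : (dep (o + sz s + 1)
        (Tr.node (o + sz s + 1) (insR (o + sz s) S1) (insL (o + sz s + 2) S2)) : ℝ) = 0 := by
      simp [dep]
    rw [h5]
    linarith

theorem key2 {a b : ℝ} (ha : 0 ≤ a) (hC : Weak a b) {s : Sh} {e : ℝ}
    (h : Ach s e) : 2 * hs s + 1 ≤ a * e + b := by
  obtain ⟨S, k, hS⟩ := h 0
  have h1 := key hC (lab s 0) (ord_lab s 0) S (by rw [k, kys_lab])
  rw [avg_hs, avg_ev (fun x => 1 + (dep x S : ℝ))] at h1
  have := mul_le_mul_of_nonneg_left hS ha
  linarith

/-- complete trees -/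
def uni : ℕ → Sh
  | 0 => .leaf
  | k + 1 => .node (uni k) (uni k)

theorem uni_hs (k : ℕ) : hs (uni k) = k := by
  induction k with
  | zero => simp [uni, hs]
  | succ k ih => rw [uni, hs, ih]; push_cast; ring

theorem uni_ach (k : ℕ) : Ach (uni k) (k + 1) := by
  induction k with
  | zero =>
    have e : ((0 : ℕ) : ℝ) + 1 = 1 := by norm_num
    rw [e]; exact ach_leaf
  | succ k ih =>
    have := ach_node ih ih
    have e : (1 : ℝ) + ((k : ℝ) + 1 + (k + 1)) / 2 = ((k + 1 : ℕ) : ℝ) + 1 := by push_cast; ring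
    rw [e] at this
    exact this

/-- the skew trees -/
def skw : ℕ → Sh
  | 0 => .leaf
  | 1 => .leaf
  | k + 2 => .node (.node (skw k) .leaf) (skw (k + 1))

theorem skw_hs (k : ℕ) : 6 - 8 * (5 / 6 : ℝ) ^ k ≤ hs (skw k) := by
  induction k using Nat.strong_induction_on with
  | _ k ih =>
    match k, ih with
    | 0, _ => simp [skw, hs]; norm_num
    | 1, _ => simp [skw, hs]; norm_num
    | k + 2, ih =>
      have h1 := ih k (by omega)
      have h2 := ih (k + 1) (by omega)
      simp only [skw, hs]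
      have hp : (0 : ℝ) ≤ (5 / 6 : ℝ) ^ k := by positivity
      rw [pow_succ] at h2
      rw [pow_succ, pow_succ]
      linarith

theorem skw_ach (k : ℕ) : ∃ e ≤ (4 : ℝ), Ach (skw k) e := by
  induction k using Nat.strong_induction_on with
  | _ k ih =>
    match k, ih with
    | 0, _ => exact ⟨1, by norm_num, ach_leaf⟩
    | 1, _ => exact ⟨1, by norm_num, ach_leaf⟩
    | k + 2, ih =>
      obtain ⟨d, hd, h1⟩ := ih k (by omega)
      obtain ⟨e, he, h2⟩ := ih (k + 1) (by omega)
      exact ⟨_, by linarith, ach_two h1 h2⟩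

theorem two_le_of {a b : ℝ} (ha : 0 ≤ a) (hC : Weak a b) : 2 ≤ a := by
  refine arch (K := a + b - 1) fun m _ => ?_
  have := key2 ha hC (uni_ach m)
  rw [uni_hs] at this
  linarith

theorem thirteen {a b : ℝ} (ha : 0 ≤ a) (hC : Weak a b) : 13 ≤ 4 * a + b := by
  have h : ∀ k : ℕ, 13 - 16 * (5 / 6 : ℝ) ^ k ≤ 4 * a + b := by
    intro k
    obtain ⟨e, he, h1⟩ := skw_ach k
    have h2 := key2 ha hC h1
    have h3 := skw_hs k
    have h4 := mul_le_mul_of_nonneg_left he ha
    linarith
  have hl : Filter.Tendsto (fun k : ℕ => 13 - 16 * (5 / 6 : ℝ) ^ k) Filter.atTop (nhds (13 - 16 * 0)) :=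
    (tendsto_pow_atTop_nhds_zero_of_lt_one (by norm_num) (by norm_num)).const_mul 16 |>.const_sub 13
  have := le_of_tendsto' hl h
  linarith

theorem main {a b : ℝ} (h : Weak (max a 0) b) : 2 ≤ a ∧ 13 ≤ 4 * a + b := by
  have h2 := two_le_of (le_max_right a 0) h
  have ha : 2 ≤ a := by
    by_contra hc
    have : max a 0 < 2 := max_lt (by linarith) (by norm_num)
    linarith
  rw [max_eq_left (by linarith)] at h
  exact ⟨ha, thirteen (by linarith) h⟩

theorem main1 {a b : ℝ} {f : ℕ → ℝ} (hC : Comp a b f) : 2 ≤ a ∧ 13 ≤ 4 * a + b := by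
  refine main (weak_of_comp (f := f) (le_max_right a 0) ?_)
  intro T hT X hX
  have h1 := hC T hT X hX
  have h2 : a * (Pool.Agent.Y395.SP.opt T X : ℝ) ≤ max a 0 * (Pool.Agent.Y395.SP.opt T X : ℝ) :=
    mul_le_mul_of_nonneg_right (le_max_left _ _) (Nat.cast_nonneg _)
  linarith

theorem main2 {a b : ℝ} {f : ℕ → ℝ} (hC : CompS a b f) : 2 ≤ a ∧ 13 ≤ 4 * a + b := by
  refine main (weak_of_compS (f := f) ?_)
  intro T S hT hS X hX
  have h1 := hC T S hT hS X hX
  have h2 : a * (stc S X : ℝ) ≤ max a 0 * (stc S X : ℝ) :=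
    mul_le_mul_of_nonneg_right (le_max_left _ _) (Nat.cast_nonneg _)
  linarith

end Pool.Agent.N620.SL
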