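import Pool.Agent.Y395.SP.Stm

set_option autoImplicit false

/-! Reference trees with pointers and the search trees whose splaying follows them. -/

namespace Pool.Agent.N620.SL

open Pool.Agent.H581R2.Splay
open Tr

/-- A full binary tree: requested keys at the leaves, other keys at the internal nodes; the boolean
says on which side the next request is (`true`: left). -/
inductive Ref : Type
  | leaf (x : ℕ) : Ref
  | node (b : Bool) (j : ℕ) (l r : Ref) : Ref

/-- a root key with its two subtrees as a tree -/
def mk (p : ℕ × Tr × Tr) : Tr := Tr.node p.1 p.2.1 p.2.2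

/-- the search tree of a reference tree: root key and subtrees -/
def tt : Ref → ℕ × Tr × Tr
  | .leaf x => (x, nil, nil)
  | .node true j l r => ((tt r).1, Tr.node j (mk (tt l)) (tt r).2.1, (tt r).2.2)
  | .node false j l r => ((tt l).1, (tt l).2.1, Tr.node j (tt l).2.2 (mk (tt r)))

/-- all keys in symmetric order -/
def kys : Ref → List ℕ
  | .leaf x => [x]
  | .node _ j l r => kys l ++ j :: kys r

/-- the next request -/
def nxt : Ref → ℕ
  | .leaf x => x
  | .node true _ l _ => nxt l
  | .node false _ _ r => nxt r

/-- its depth in the reference tree -/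
def ndep : Ref → ℕ
  | .leaf _ => 0
  | .node true _ l _ => ndep l + 1
  | .node false _ _ r => ndep r + 1

/-- the pointers after the request -/
def stp : Ref → Ref
  | .leaf x => .leaf x
  | .node true j l r => .node false j (stp l) r
  | .node false j l r => .node true j l (stp r)

theorem keys_mk (B : Ref) : keys (mk (tt B)) = kys B := by
  induction B with
  | leaf x => simp [tt, mk, keys, kys]
  | node b j l r ihl ihr =>
    have hl : keys (mk (tt l)) = keys (tt l).2.1 ++ (tt l).1 :: keys (tt l).2.2 := rfl
    have hr : keys (mk (tt r)) = keys (tt r).2.1 ++ (tt r).1 :: keys (tt r).2.2 := rfl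
    cases b with
    | true =>
      have : keys (mk (tt (.node true j l r))) =
        (keys (mk (tt l)) ++ j :: keys (tt r).2.1) ++ (tt r).1 :: keys (tt r).2.2 := rfl
      rw [this, kys, ← ihl, ← ihr, hr]; simp
    | false =>
      have : keys (mk (tt (.node false j l r))) =
        keys (tt l).2.1 ++ (tt l).1 :: (keys (tt l).2.2 ++ j :: keys (mk (tt r))) := rfl
      rw [this, kys, ← ihl, ← ihr, hl]; simp

theorem nxt_mem (B : Ref) : nxt B ∈ kys B := by
  induction B with
  | leaf x => simp [nxt, kys]
  | node b j l r ihl ihr => cases b <;> simp [nxt, kys, ihl, ihr]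

theorem rt_mem (B : Ref) : (tt B).1 ∈ kys B := by
  rw [← keys_mk]; simp [mk, keys]

theorem kys_stp (B : Ref) : kys (stp B) = kys B := by
  induction B with
  | leaf x => rfl
  | node b j l r ihl ihr => cases b <;> simp [stp, kys, ihl, ihr]

/-- the keys are in increasing order -/
def Ord (B : Ref) : Prop := (kys B).Pairwise (· < ·)

theorem ord_node {b : Bool} {j : ℕ} {l r : Ref} (h : Ord (.node b j l r)) :
    Ord l ∧ Ord r ∧ (∀ x ∈ kys l, x < j) ∧ (∀ x ∈ kys r, j < x) := by
  unfold Ord at h
  rw [kys, List.pairwise_append, List.pairwise_cons] at h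
  exact ⟨h.1, h.2.1.2, fun x hx => h.2.2 x hx j (by simp), h.2.1.1⟩

theorem ord_stp {B : Ref} (h : Ord B) : Ord (stp B) := by
  unfold Ord; rw [kys_stp]; exact h

/-- following a search path: one step to the left -/
theorem loc_lt {x a : ℕ} {l r : Tr} {fs : List Fr} (h : x < a) :
    locate x (Tr.node a l r) fs = locate x l (Fr.inL a r :: fs) := by
  rw [locate]; rw [if_neg (by omega), if_pos h]

theorem loc_gt {x a : ℕ} {l r : Tr} {fs : List Fr} (h : a < x) :
    locate x (Tr.node a l r) fs = locate x r (Fr.inR a l :: fs) := by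
  rw [locate]; rw [if_neg (by omega), if_neg (by omega)]

theorem dep_lt {x a : ℕ} {l r : Tr} (h : x < a) : dep x (Tr.node a l r) = dep x l + 1 := by
  rw [dep, if_neg (by omega), if_pos h]

theorem dep_gt {x a : ℕ} {l r : Tr} (h : a < x) : dep x (Tr.node a l r) = dep x r + 1 := by
  rw [dep, if_neg (by omega), if_neg (by omega)]

theorem loc_climb (B : Ref) (h : Ord B) (fs : List Fr) :
    climb (nxt B) (locate (nxt B) (mk (tt B)) fs).1 (locate (nxt B) (mk (tt B)) fs).2.1
      (locate (nxt B) (mk (tt B)) fs).2.2 =
    climb (nxt B) fs (tt (stp B)).2.1 (tt (stp B)).2.2 := by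
  induction B generalizing fs with
  | leaf x => simp [tt, mk, nxt, stp, locate]
  | node b j l r ihl ihr =>
    obtain ⟨hl, hr, hlj, hjr⟩ := ord_node h
    cases b with
    | true =>
      have h1 : nxt l < j := hlj _ (nxt_mem l)
      have h2 : j < (tt r).1 := hjr _ (rt_mem r)
      have e : locate (nxt l) (mk (tt (.node true j l r))) fs =
          locate (nxt l) (mk (tt l))
            (Fr.inL j (tt r).2.1 :: Fr.inL (tt r).1 (tt r).2.2 :: fs) := by
        show locate (nxt l) (Tr.node (tt r).1 (Tr.node j (mk (tt l)) (tt r).2.1) (tt r).2.2) fs = _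
        rw [loc_lt (by omega), loc_lt h1]
      show climb (nxt l) (locate (nxt l) (mk (tt (.node true j l r))) fs).1
        (locate (nxt l) (mk (tt (.node true j l r))) fs).2.1
        (locate (nxt l) (mk (tt (.node true j l r))) fs).2.2 = _
      rw [e, ihl hl]
      rfl
    | false =>
      have h1 : j < nxt r := hjr _ (nxt_mem r)
      have h2 : (tt l).1 < j := hlj _ (rt_mem l)
      have e : locate (nxt r) (mk (tt (.node false j l r))) fs =
          locate (nxt r) (mk (tt r))
            (Fr.inR j (tt l).2.2 :: Fr.inR (tt l).1 (tt l).2.1 :: fs) := by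
        show locate (nxt r) (Tr.node (tt l).1 (tt l).2.1 (Tr.node j (tt l).2.2 (mk (tt r)))) fs = _
        rw [loc_gt (by omega), loc_gt h1]
      show climb (nxt r) (locate (nxt r) (mk (tt (.node false j l r))) fs).1
        (locate (nxt r) (mk (tt (.node false j l r))) fs).2.1
        (locate (nxt r) (mk (tt (.node false j l r))) fs).2.2 = _
      rw [e, ihr hr]
      rfl

theorem rt_stp (B : Ref) : (tt (stp B)).1 = nxt B := by
  induction B with
  | leaf x => rfl
  | node b j l r ihl ihr =>
    cases b with
    | true => exact ihl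
    | false => exact ihr

theorem splay_nxt (B : Ref) (h : Ord B) : splay (nxt B) (mk (tt B)) = mk (tt (stp B)) := by
  have := loc_climb B h []
  unfold splay
  rw [this]
  show Tr.node (nxt B) (tt (stp B)).2.1 (tt (stp B)).2.2 =
    Tr.node (tt (stp B)).1 (tt (stp B)).2.1 (tt (stp B)).2.2
  rw [rt_stp]

theorem dep_nxt (B : Ref) (h : Ord B) : dep (nxt B) (mk (tt B)) = 2 * ndep B := by
  induction B with
  | leaf x => simp [tt, mk, nxt, ndep, dep]
  | node b j l r ihl ihr =>
    obtain ⟨hl, hr, hlj, hjr⟩ := ord_node h
    cases b with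
    | true =>
      have h1 : nxt l < j := hlj _ (nxt_mem l)
      have h2 : j < (tt r).1 := hjr _ (rt_mem r)
      show dep (nxt l) (Tr.node (tt r).1 (Tr.node j (mk (tt l)) (tt r).2.1) (tt r).2.2) =
        2 * (ndep l + 1)
      rw [dep_lt (by omega), dep_lt h1, ihl hl]; ring
    | false =>
      have h1 : j < nxt r := hjr _ (nxt_mem r)
      have h2 : (tt l).1 < j := hlj _ (rt_mem l)
      show dep (nxt r) (Tr.node (tt l).1 (tt l).2.1 (Tr.node j (tt l).2.2 (mk (tt r)))) =
        2 * (ndep r + 1)
      rw [dep_gt (by omega), dep_gt h1, ihr hr]; ring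

/-- the first `q` requests -/
def reqs : Ref → ℕ → List ℕ
  | _, 0 => []
  | B, q + 1 => nxt B :: reqs (stp B) q

theorem reqs_length (B : Ref) (q : ℕ) : (reqs B q).length = q := by
  induction q generalizing B with
  | zero => rfl
  | succ q ih => simp [reqs, ih]

theorem reqs_mem (B : Ref) (q : ℕ) : ∀ x ∈ reqs B q, x ∈ kys B := by
  induction q generalizing B with
  | zero => simp [reqs]
  | succ q ih =>
    intro x hx
    rw [reqs, List.mem_cons] at hx
    rcases hx with rfl | hx
    · exact nxt_mem B
    · rw [← kys_stp]; exact ih _ x hx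

/-- the sum of a function over the first `q` states -/
def tot (g : Ref → ℝ) : Ref → ℕ → ℝ
  | _, 0 => 0
  | B, q + 1 => g B + tot g (stp B) q

theorem cost_tot (B : Ref) (h : Ord B) (q : ℕ) :
    (costSplay (mk (tt B)) (reqs B q) : ℝ) = tot (fun C => 2 * (ndep C : ℝ) + 1) B q := by
  induction q generalizing B with
  | zero => simp [reqs, costSplay, tot]
  | succ q ih =>
    rw [reqs, costSplay, tot, splay_nxt B h, dep_nxt B h, Nat.cast_add, ih _ (ord_stp h)]
    push_cast
    ring

/-- averages along the reference tree -/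
noncomputable def avg (w : ℝ) (g : Ref → ℝ) : Ref → ℝ
  | .leaf x => g (.leaf x)
  | .node _ _ l r => w + (avg w g l + avg w g r) / 2

/-- `g` is read off along the pointers, with weight `w` for each edge -/
def Along (w : ℝ) (g : Ref → ℝ) : Prop :=
  (∀ j l r, g (.node true j l r) = g l + w) ∧ (∀ j l r, g (.node false j l r) = g r + w)

theorem tot_leaf (g : Ref → ℝ) (x q : ℕ) : tot g (.leaf x) q = q * g (.leaf x) := by
  induction q with
  | zero => simp [tot]
  | succ q ih => rw [tot, stp, ih]; push_cast; ring

theorem tot_node {w : ℝ} {g : Ref → ℝ} (hg : Along w g) (b : Bool) (j : ℕ) (l r : Ref) (q : ℕ) :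
    tot g (.node b j l r) (2 * q) = tot g l q + tot g r q + 2 * q * w := by
  induction q generalizing l r with
  | zero => simp [tot]
  | succ q ih =>
    have e : 2 * (q + 1) = 2 * q + 1 + 1 := by ring
    rw [e]
    cases b with
    | true =>
      rw [tot, tot, stp, stp, ih, hg.1, hg.2, tot, tot]; push_cast; ring
    | false =>
      rw [tot, tot, stp, stp, ih, hg.1, hg.2, tot, tot]; push_cast; ring

/-- the height -/
def ht : Ref → ℕ
  | .leaf _ => 0
  | .node _ _ l r => max (ht l) (ht r) + 1

theorem tot_avg {w : ℝ} {g : Ref → ℝ} (hg : Along w g) (m : ℕ) (D : ℕ) :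
    ∀ B : Ref, ht B ≤ D → tot g B (2 ^ D * m) = (2 ^ D * m : ℝ) * avg w g B := by
  induction D with
  | zero =>
    intro B hB
    cases B with
    | leaf x => rw [tot_leaf, avg]; push_cast; ring
    | node b j l r => simp [ht] at hB
  | succ D ih =>
    intro B hB
    cases B with
    | leaf x => rw [tot_leaf, avg]; push_cast; ring
    | node b j l r =>
      rw [ht] at hB
      have h1 : ht l ≤ D := by omega
      have h2 : ht r ≤ D := by omega
      have e : 2 ^ (D + 1) * m = 2 * (2 ^ D * m) := by ring
      rw [e, tot_node hg, ih l h1, ih r h2, avg]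
      push_cast
      ring

theorem along_ndep : Along 2 (fun C => 2 * (ndep C : ℝ) + 1) := by
  constructor
  · intro j l r; simp only [ndep]; push_cast; ring
  · intro j l r; simp only [ndep]; push_cast; ring

theorem along_nxt (s : ℕ → ℝ) : Along 0 (fun C => s (nxt C)) := by
  constructor
  · intro j l r; simp only [nxt]; ring
  · intro j l r; simp only [nxt]; ring

end Pool.Agent.N620.SL
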