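import Pool.Agent.N620.SL.Ref

set_option autoImplicit false

/-! Static executions: any two trees with the same keys are connected by rotations. -/

namespace Pool.Agent.N620.SL

open Pool.Agent.H581R2.Splay Pool.Agent.TH49.Spl
open Pool.Agent.Y395.SP (opt)
open Tr

theorem rn_trans {e e' : ℕ} {T T' T'' : Tr} (h : RotN e T T') (h' : RotN e' T' T'') :
    RotN (e + e') T T'' := by
  induction h with
  | refl T => simpa using h'
  | step e s T T' T1 hr _ ih =>
    have := RotN.step _ s _ _ _ hr (ih h')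
    have e1 : e + 1 + e' = e + e' + 1 := by ring
    rw [e1]; exact this

theorem rot_symm {T T' : Tr} {s : ℕ} (h : Rot T T' s) : ∃ s', Rot T' T s' := by
  induction h with
  | right a b A B C => exact ⟨_, Rot.left a b A B C |> fun h => h⟩
  | left a b A B C => exact ⟨_, Rot.right a b A B C⟩
  | inl a L L' R s _ ih => obtain ⟨s', h'⟩ := ih; exact ⟨s', Rot.inl a _ _ _ s' h'⟩
  | inr a L R R' s _ ih => obtain ⟨s', h'⟩ := ih; exact ⟨s', Rot.inr a _ _ _ s' h'⟩

theorem rn_symm {e : ℕ} {T T' : Tr} (h : RotN e T T') : ∃ e', RotN e' T' T := by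
  induction h with
  | refl T => exact ⟨0, RotN.refl T⟩
  | step e s T T' T1 hr _ ih =>
    obtain ⟨e', h'⟩ := ih
    obtain ⟨s', hs⟩ := rot_symm hr
    exact ⟨_, rn_trans h' (RotN.step 0 s' _ _ _ hs (RotN.refl _))⟩

theorem rn_inl {e : ℕ} {L L' : Tr} (a : ℕ) (R : Tr) (h : RotN e L L') :
    RotN e (node a L R) (node a L' R) := by
  induction h with
  | refl T => exact RotN.refl _
  | step e s T T' T1 hr _ ih => exact RotN.step _ s _ _ _ (Rot.inl a _ _ _ s hr) ih

theorem rn_inr {e : ℕ} {R R' : Tr} (a : ℕ) (L : Tr) (h : RotN e R R') :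
    RotN e (node a L R) (node a L R') := by
  induction h with
  | refl T => exact RotN.refl _
  | step e s T T' T1 hr _ ih => exact RotN.step _ s _ _ _ (Rot.inr a _ _ _ s hr) ih

/-- the right path with given keys -/
def chain : List ℕ → Tr
  | [] => nil
  | a :: K => Tr.node a nil (chain K)

theorem rn_chain2 (L R : List ℕ) (a : ℕ) :
    ∃ e, RotN e (Tr.node a (chain L) (chain R)) (chain (L ++ a :: R)) := by
  induction L with
  | nil => exact ⟨0, RotN.refl _⟩
  | cons b L ih =>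
    obtain ⟨e, he⟩ := ih
    exact ⟨e + 1, RotN.step _ _ _ _ _ (Rot.right a b nil (chain L) (chain R)) (rn_inr b nil he)⟩

theorem rn_chain (T : Tr) : ∃ e, RotN e T (chain (keys T)) := by
  induction T with
  | nil => exact ⟨0, RotN.refl _⟩
  | node a l r ihl ihr =>
    obtain ⟨e1, h1⟩ := ihl
    obtain ⟨e2, h2⟩ := ihr
    obtain ⟨e3, h3⟩ := rn_chain2 (keys l) (keys r) a
    exact ⟨_, rn_trans (rn_inl a r h1) (rn_trans (rn_inr a _ h2) h3)⟩

theorem rn_connected {T T' : Tr} (h : keys T = keys T') : ∃ e, RotN e T T' := by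
  obtain ⟨e1, h1⟩ := rn_chain T
  obtain ⟨e2, h2⟩ := rn_chain T'
  obtain ⟨e3, h3⟩ := rn_symm h2
  rw [h] at h1
  exact ⟨_, rn_trans h1 h3⟩

/-- the cost without rotations -/
def stc (S : Tr) : List ℕ → ℕ
  | [] => 0
  | x :: X => 1 + dep x S + stc S X

theorem exec_stc (S : Tr) (X : List ℕ) : Exec S X (stc S X) := by
  induction X with
  | nil => exact Exec.nil S
  | cons x X ih =>
    have := Exec.cons S S x X 0 _ (RotN.refl S) ih
    simpa [stc] using this

theorem opt_le {T : Tr} {X : List ℕ} {c : ℕ} (h : Exec T X c) : opt T X ≤ c := Nat.sInf_le h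

theorem stc_tot (S : Tr) (B : Ref) (q : ℕ) :
    (stc S (reqs B q) : ℝ) = tot (fun C => 1 + (dep (nxt C) S : ℝ)) B q := by
  induction q generalizing B with
  | zero => simp [reqs, stc, tot]
  | succ q ih => rw [reqs, stc, tot, Nat.cast_add, ih]; push_cast; ring

/-- The optimum of the requests is at most the cost in any static tree, up to a constant. -/
theorem opt_static (B : Ref) (S : Tr) (h : keys S = kys B) : ∃ K : ℕ, ∀ q : ℕ,
    (opt (mk (tt B)) (reqs B q) : ℝ) ≤ K + tot (fun C => 1 + (dep (nxt C) S : ℝ)) B q := by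
  obtain ⟨e, he⟩ := rn_connected (T := mk (tt B)) (T' := S) (by rw [keys_mk, h])
  refine ⟨1 + e + dep (nxt B) (mk (tt B)), fun q => ?_⟩
  cases q with
  | zero =>
    have : opt (mk (tt B)) (reqs B 0) ≤ 0 := opt_le (Exec.nil _)
    have h0 : (opt (mk (tt B)) (reqs B 0) : ℝ) = 0 := by
      have := Nat.le_zero.mp this; rw [this]; simp
    rw [h0, tot]; positivity
  | succ q =>
    have hx : Exec (mk (tt B)) (reqs B (q + 1))
        (1 + e + dep (nxt B) (mk (tt B)) + stc S (reqs (stp B) q)) :=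
      Exec.cons _ S (nxt B) (reqs (stp B) q) e _ he (exec_stc S _)
    have h1 : (opt (mk (tt B)) (reqs B (q + 1)) : ℝ) ≤
        ((1 + e + dep (nxt B) (mk (tt B)) + stc S (reqs (stp B) q) : ℕ) : ℝ) := by
      exact_mod_cast opt_le hx
    rw [Nat.cast_add, stc_tot] at h1
    rw [tot]
    have h2 : (0 : ℝ) ≤ 1 + (dep (nxt B) S : ℝ) := by positivity
    linarith

/-- the bound on splay costs, relative to the optimum -/
def Comp (a b : ℝ) (f : ℕ → ℝ) : Prop :=
  ∀ T : Tr, IsBST T → ∀ X : List ℕ, (∀ x ∈ X, x ∈ keys T) →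
    (costSplay T X : ℝ) ≤ a * (opt T X : ℝ) + b * (X.length : ℝ) + f (keys T).length

/-- the bound on splay costs, relative to the static trees -/
def CompS (a b : ℝ) (f : ℕ → ℝ) : Prop :=
  ∀ T S : Tr, IsBST T → keys S = keys T → ∀ X : List ℕ, (∀ x ∈ X, x ∈ keys T) →
    (costSplay T X : ℝ) ≤ a * (stc S X : ℝ) + b * (X.length : ℝ) + f (keys T).length

/-- the bound for given keys and a given static tree, with any additive constant -/
def Weak (a b : ℝ) : Prop :=
  ∀ (B : Ref) (S : Tr), Ord B → keys S = kys B → ∃ K : ℝ, ∀ q : ℕ,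
    (costSplay (mk (tt B)) (reqs B q) : ℝ) ≤ a * (stc S (reqs B q) : ℝ) + b * (q : ℝ) + K

theorem weak_of_comp {a b : ℝ} {f : ℕ → ℝ} (ha : 0 ≤ a) (h : Comp a b f) : Weak a b := by
  intro B S hB hS
  obtain ⟨K, hK⟩ := opt_static B S hS
  have hbst : IsBST (mk (tt B)) := by unfold IsBST; rw [keys_mk]; exact hB
  refine ⟨a * K + f (kys B).length, fun q => ?_⟩
  have h1 := h (mk (tt B)) hbst (reqs B q) (by intro x hx; rw [keys_mk]; exact reqs_mem B _ x hx)
  rw [keys_mk, reqs_length] at h1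
  have h2 := mul_le_mul_of_nonneg_left (hK q) ha
  rw [stc_tot]
  linarith

theorem weak_of_compS {a b : ℝ} {f : ℕ → ℝ} (h : CompS a b f) : Weak a b := by
  intro B S hB hS
  have hbst : IsBST (mk (tt B)) := by unfold IsBST; rw [keys_mk]; exact hB
  refine ⟨f (kys B).length, fun q => ?_⟩
  have h1 := h (mk (tt B)) S hbst (by rw [keys_mk, hS]) (reqs B q)
    (by intro x hx; rw [keys_mk]; exact reqs_mem B _ x hx)
  rw [keys_mk, reqs_length] at h1
  exact h1

theorem arch {u v K : ℝ} (h : ∀ m : ℕ, 1 ≤ m → (m : ℝ) * u ≤ m * v + K) : u ≤ v := by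
  by_contra hc
  have hc := lt_of_not_ge hc
  obtain ⟨m, hm⟩ := exists_nat_gt (K / (u - v))
  have hpos : 0 < u - v := by linarith
  rw [div_lt_iff₀ hpos] at hm
  have h1 := h (m + 1) (by omega)
  push_cast at h1
  nlinarith

theorem key {a b : ℝ} (hC : Weak a b) (B : Ref) (hB : Ord B) (S : Tr)
    (hS : keys S = kys B) :
    avg 2 (fun C => 2 * (ndep C : ℝ) + 1) B ≤
      a * avg 0 (fun C => 1 + (dep (nxt C) S : ℝ)) B + b := by
  obtain ⟨K, hK⟩ := hC B S hB hS
  set P : ℕ := 2 ^ ht B with hP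
  have hP0 : (0 : ℝ) < (P : ℝ) := by rw [hP]; positivity
  refine arch (K := K / P) fun m hm => ?_
  have h1 := hK (P * m)
  rw [cost_tot B hB, stc_tot, hP, tot_avg along_ndep m (ht B) B le_rfl,
    tot_avg (along_nxt fun x => 1 + (dep x S : ℝ)) m (ht B) B le_rfl] at h1
  have hP1 : ((2 : ℝ) ^ ht B) = (P : ℝ) := by rw [hP]; push_cast; rfl
  have hPm : (((2 ^ ht B * m : ℕ) : ℕ) : ℝ) = (P : ℝ) * m := by rw [hP]; push_cast; rfl
  rw [hP1] at h1
  rw [hPm] at h1
  rw [← sub_nonneg]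
  have h5 : (P : ℝ) * (K / P) = K := by field_simp
  have h6 : 0 ≤ (P : ℝ) * (m * (a * avg 0 (fun C => 1 + (dep (nxt C) S : ℝ)) B + b) +
      K / P - m * avg 2 (fun C => 2 * (ndep C : ℝ) + 1) B) := by
    rw [mul_sub, mul_add, h5]
    nlinarith
  exact nonneg_of_mul_nonneg_right h6 hP0

end Pool.Agent.N620.SL
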